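import Pool.Agent.Helper53.CTG.Goals

/-!
# Project CTG (MP_8b4d68_lc), packet VX: block roots
-/

namespace Pool.Agent.Helper71.CTG

open Pool.Agent.Helper53.CTG
open Pool.Agent.Helper1.TE (Gad app cif)
open Finset

section

variable {Z : Type} (g : Gad Z) (tst : ℕ → ℕ) (t : ℕ → ℕ → ℕ → ℕ → ℕ → ℕ) (c : ℕ)

theorem ex_nod (v i T G : ℕ) (s s' : (ℕ → Z) × ℕ) :
    exec g tst t c (nod v i T) G s = some s' ↔
      G = 0 ∧ ∃ z, app g tst T (t 2 v (s.2 % 2 ^ c) 0 0) (s.1 i) = some z ∧
        s' = (Function.update s.1 i z, s.2) := by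
  have h : exec g tst t c (nod v i T) G s =
      (if G = 0 then (app g tst T (t 2 v (s.2 % 2 ^ c) 0 0) (s.1 i)).map fun z =>
        (Function.update s.1 i z, s.2) else none) := rfl
  rw [h]
  by_cases hG : G = 0
  · rw [if_pos hG, Option.map_eq_some_iff]
    exact ⟨fun ⟨z, h1, h2⟩ => ⟨hG, z, h1, h2.symm⟩, fun ⟨_, z, h1, h2⟩ => ⟨z, h1, h2.symm⟩⟩
  · rw [if_neg hG]
    exact ⟨fun h => by simp at h, fun h => absurd h.1 hG⟩

theorem ex_hd (e G : ℕ) (s s' : (ℕ → Z) × ℕ) :
    exec g tst t c (2, 0, 0, 0, 0, e, 1) G s = some s' ↔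
      G = 0 ∧ s' = (Function.update s.1 e (g.hd (s.2 % 2 ^ c) (s.1 e)), s.2) := by
  have h : exec g tst t c (2, 0, 0, 0, 0, e, 1) G s =
      (if G = 0 then some (Function.update s.1 e (g.hd (s.2 % 2 ^ c) (s.1 e)), s.2)
        else none) := rfl
  rw [h]
  by_cases hG : G = 0
  · rw [if_pos hG]
    exact ⟨fun h => ⟨hG, (Option.some.inj h).symm⟩, fun h => by rw [h.2]⟩
  · rw [if_neg hG]
    exact ⟨fun h => by simp at h, fun h => absurd h.1 hG⟩

theorem ex_un (e G : ℕ) (s s' : (ℕ → Z) × ℕ) :
    exec g tst t c (2, 0, 0, 0, 0, e, 2) G s = some s' ↔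
      G = 0 ∧ ∃ z, g.un (s.2 % 2 ^ c) (s.1 e) = some z ∧
        s' = (Function.update s.1 e z, s.2) := by
  have h : exec g tst t c (2, 0, 0, 0, 0, e, 2) G s =
      (if G = 0 then (g.un (s.2 % 2 ^ c) (s.1 e)).map fun z =>
        (Function.update s.1 e z, s.2) else none) := rfl
  rw [h]
  by_cases hG : G = 0
  · rw [if_pos hG, Option.map_eq_some_iff]
    exact ⟨fun ⟨z, h1, h2⟩ => ⟨hG, z, h1, h2.symm⟩, fun ⟨_, z, h1, h2⟩ => ⟨z, h1, h2.symm⟩⟩
  · rw [if_neg hG]
    exact ⟨fun h => by simp at h, fun h => absurd h.1 hG⟩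

theorem ex_idle (G : ℕ) (s s' : (ℕ → Z) × ℕ) :
    exec g tst t c idle G s = some s' ↔ G = 0 ∧ s' = s := by
  have h : exec g tst t c idle G s = (if G = 0 then some s else none) := rfl
  rw [h]
  by_cases hG : G = 0
  · rw [if_pos hG]
    exact ⟨fun h => ⟨hG, (Option.some.inj h).symm⟩, fun h => by rw [h.2]⟩
  · rw [if_neg hG]
    exact ⟨fun h => by simp at h, fun h => absurd h.1 hG⟩

end

theorem gVX : GoalVX := by
  intro hB hE Z g hg tst t q c htab hq
  have hK : 1 ≤ g.K := hg.K_pos
  have hpc : 0 < 2 ^ c := by positivity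
  refine ⟨?_, ?_⟩
  · intro γ v i T C A s' _ _ _
    rw [Nat.mul_zero, hE.1 g tst t q c _ 0 γ _ _ (Or.inl rfl), ex_nod]
    constructor
    · rintro ⟨⟨h0, z, h1, h2⟩, h3⟩
      refine ⟨fun τ hτ => ?_, z, h1, h2⟩
      have : τ = 0 := by simpa using hτ
      subst this
      exact h0
    · rintro ⟨h0, z, h1, h2⟩
      refine ⟨⟨h0 0 (by norm_num), z, h1, h2⟩, fun τ h4 h5 => ?_⟩
      exact absurd h5 (by simp; omega)
  · intro m u hu1 huq hKX hKC D v i T hD hBR γ C A s' hγ hV
    set e := 3 * (q - u) with he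
    have hie : i ≠ e := by
      rcases hBR with h | h <;> omega
    set x := A % 2 ^ c with hx
    have hxK : x < g.K := lt_of_lt_of_le (Nat.mod_lt _ hpc) htab.2
    set n := (q + 1) * m + u with hn
    have hP : 0 < 13 ^ n := by positivity
    rw [hB]
    set C' := Function.update C e (g.hd x (C e)) with hC'
    have hV' : ∀ j, g.V (C' j) := by
      intro j
      by_cases hj : j = e
      · subst hj
        rw [hC', Function.update_self]
        exact hg.hd_V x hxK _ (hV _)
      · rw [hC', Function.update_of_ne hj]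
        exact hV j
    have hC'e : C' e = g.hd x (C e) := by rw [hC', Function.update_self]
    have hC'i : C' i = C i := by rw [hC', Function.update_of_ne hie]
    have hupd : ∀ (z w : Z), Function.update (Function.update (Function.update C' i z) e w) e (C e)
        = Function.update C i z := by
      intro z w
      funext j
      by_cases hj : j = e
      · subst hj
        rw [Function.update_self, Function.update_of_ne hie.symm]
      · rw [Function.update_of_ne hj, Function.update_of_ne hj]
        by_cases hji : j = i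
        · subst hji
          rw [Function.update_self, Function.update_self]
        · rw [Function.update_of_ne hji, Function.update_of_ne hji, hC',
            Function.update_of_ne hj]
    have s0 : sub q D n 0 = (2, 0, 0, 0, 0, e, 1) := hD 0 (by norm_num)
    have s1 : sub q D n 1 = nod v i T := hD 1 (by norm_num)
    have s2 : sub q D n 2 = (2, 0, 0, 0, 0, e, 2) := hD 2 (by norm_num)
    have s3 : ∀ d, 3 ≤ d → d < 13 → sub q D n d = idle := by
      intro d hd hd13
      rw [hD d hd13]
      unfold phV cif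
      rw [if_neg (by omega), if_neg (by omega), if_neg (by omega)]
    have kk1 : De.k (2, 0, 0, 0, 0, e, 1) ≠ 0 := show (2 : ℕ) ≠ 0 by decide
    have kk2 : De.k (2, 0, 0, 0, 0, e, 2) ≠ 0 := show (2 : ℕ) ≠ 0 by decide
    constructor
    · rintro ⟨f, h0, h13, hf⟩
      -- phase 0
      have p0 := hf 0 (by norm_num)
      rw [s0, hE.1 g tst t q c (2, 0, 0, 0, 0, e, 1) n _ _ _ (Or.inr kk1), ex_hd, h0] at p0
      obtain ⟨⟨g0, h1⟩, g0'⟩ := p0
      have h1' : f 1 = (C', A) := h1
      -- phase 1
      have p1 := hf 1 (by norm_num)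
      rw [s1, h1'] at p1
      obtain ⟨k1, k2, -, k4⟩ := hKX (fun τ => γ (1 * 13 ^ n + τ)) v i T C' A x (C e) (f 2)
        (fun τ => hγ _) hV' hxK (hV e) hC'e (Or.inr hBR) p1
      -- phase 2
      have p2 := hf 2 (by norm_num)
      rw [s2, hE.1 g tst t q c (2, 0, 0, 0, 0, e, 2) n _ _ _ (Or.inr kk2), ex_un] at p2
      obtain ⟨⟨g2, z0, u1, u2⟩, g2'⟩ := p2
      rw [k1] at u1
      obtain ⟨k5, z, k6, k7⟩ := k4 (by rw [show A % 2 ^ c = x from rfl] at u1; rw [u1]; rfl)
      rw [show A % 2 ^ c = x from rfl, k7, Function.update_self, hC'e,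
        hg.ok9 x hxK (C e) (hV e)] at u1
      have hz0 : z0 = C e := (Option.some.inj u1).symm
      have h3 : f 3 = (Function.update C i z, A) := by
        rw [show f (2 + 1) = f 3 from rfl] at u2
        rw [u2, hz0, k7, hupd, k1]
      -- idle phases
      have hid : ∀ d, 3 ≤ d → d < 13 → f (d + 1) = f d ∧ ∀ τ < 13 ^ n, γ (d * 13 ^ n + τ) = 0 := by
        intro d hd hd13
        have p := hf d hd13
        rw [s3 d hd hd13, hE.1 g tst t q c _ n _ _ _ (Or.inr (by decide)), ex_idle] at p
        obtain ⟨⟨a1, a2⟩, a3⟩ := p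
        refine ⟨a2, fun τ hτ => ?_⟩
        rcases Nat.eq_zero_or_pos τ with h | h
        · subst h; exact a1
        · exact a3 τ h hτ
      have h13' : f 13 = f 3 := by
        rw [(hid 12 (by norm_num) (by norm_num)).1, (hid 11 (by norm_num) (by norm_num)).1,
          (hid 10 (by norm_num) (by norm_num)).1, (hid 9 (by norm_num) (by norm_num)).1,
          (hid 8 (by norm_num) (by norm_num)).1, (hid 7 (by norm_num) (by norm_num)).1,
          (hid 6 (by norm_num) (by norm_num)).1, (hid 5 (by norm_num) (by norm_num)).1,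
          (hid 4 (by norm_num) (by norm_num)).1, (hid 3 (by norm_num) (by norm_num)).1]
      refine ⟨?_, z, ?_, ?_⟩
      · intro τ hτ
        have hd13 : τ / 13 ^ n < 13 := by
          rw [Nat.div_lt_iff_lt_mul hP, ← pow_succ']
          exact hτ
        have hr : τ % 13 ^ n < 13 ^ n := Nat.mod_lt _ hP
        have hτe : τ / 13 ^ n * 13 ^ n + τ % 13 ^ n = τ := by
          rw [mul_comm]; exact Nat.div_add_mod _ _
        generalize τ / 13 ^ n = d at hd13 hτe ⊢
        generalize τ % 13 ^ n = r at hr hτe ⊢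
        subst hτe
        rcases Nat.lt_or_ge d 3 with h | h
        · interval_cases d
          · rw [if_neg (by norm_num)]
            rcases Nat.eq_zero_or_pos r with h | h
            · subst h; exact g0
            · exact g0' r h hr
          · rw [if_pos rfl]
            exact k5 r hr
          · rw [if_neg (by norm_num)]
            rcases Nat.eq_zero_or_pos r with h | h
            · subst h; exact g2
            · exact g2' r h hr
        · rw [if_neg (by omega)]
          exact (hid d h hd13).2 r hr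
      · rw [hC'i] at k6
        exact k6
      · rw [← h13, h13', h3]
    · rintro ⟨hγ', z, hz, rfl⟩
      have hz' : app g tst T (ev t q c (q * m + u) v x) (C' i) = some z := by
        rw [hC'i]; exact hz
      have hγd : ∀ d < 13, ∀ r < 13 ^ n, γ (d * 13 ^ n + r) =
          if d = 1 then can g.K t q c n v x r else 0 := by
        intro d hd r hr
        have h1 : (d * 13 ^ n + r) / 13 ^ n = d := by
          rw [mul_comm, Nat.mul_add_div hP, Nat.div_eq_of_lt hr, add_zero]
        have h2 : (d * 13 ^ n + r) % 13 ^ n = r := by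
          rw [mul_comm, Nat.mul_add_mod, Nat.mod_eq_of_lt hr]
        have h3 : d * 13 ^ n + r < 13 ^ (n + 1) := by
          have : d * 13 ^ n ≤ 12 * 13 ^ n := Nat.mul_le_mul_right _ (by omega)
          rw [pow_succ]
          omega
        rw [hγ' _ h3, h1, h2]
      have hrun := hKC (fun τ => γ (1 * 13 ^ n + τ)) v i T C' A x z hV' (Or.inr hBR) hxK
        (fun τ hτ => by
          show γ (1 * 13 ^ n + τ) = _
          rw [hγd 1 (by norm_num) τ hτ, if_pos rfl]) hz'
      refine ⟨fun d => if d = 0 then (C, A) else if d = 1 then (C', A) else if d = 2 then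
        (Function.update (Function.update C' i z) e (shl g (List.replicate 9 x) (C' e)), A)
        else (Function.update C i z, A), rfl, rfl, ?_⟩
      intro d hd
      have hg0 : d ≠ 1 → (fun τ => γ (d * 13 ^ n + τ)) 0 = 0 ∧
          ∀ τ, 0 < τ → τ < 13 ^ n → (fun τ => γ (d * 13 ^ n + τ)) τ = 0 := by
        intro h1
        refine ⟨?_, fun τ _ hτ => ?_⟩
        · show γ (d * 13 ^ n + 0) = 0
          rw [hγd d hd 0 hP, if_neg h1]
        · show γ (d * 13 ^ n + τ) = 0
          rw [hγd d hd τ hτ, if_neg h1]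
      rcases Nat.lt_or_ge d 3 with h3 | h3
      · interval_cases d
        · rw [s0, hE.1 g tst t q c (2, 0, 0, 0, 0, e, 1) n _ _ _ (Or.inr kk1), ex_hd]
          exact ⟨⟨(hg0 (by norm_num)).1, rfl⟩, (hg0 (by norm_num)).2⟩
        · rw [s1]
          exact hrun
        · rw [s2, hE.1 g tst t q c (2, 0, 0, 0, 0, e, 2) n _ _ _ (Or.inr kk2), ex_un]
          refine ⟨⟨(hg0 (by norm_num)).1, C e, ?_, ?_⟩, (hg0 (by norm_num)).2⟩
          · show g.un x (Function.update (Function.update C' i z) e
              (shl g (List.replicate 9 x) (C' e)) e) = some (C e)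
            rw [Function.update_self, hC'e]
            exact hg.ok9 x hxK (C e) (hV e)
          · show (Function.update C i z, A) = (Function.update (Function.update
              (Function.update C' i z) e (shl g (List.replicate 9 x) (C' e))) e (C e), A)
            rw [hupd]
      · rw [s3 d h3 hd, hE.1 g tst t q c _ n _ _ _ (Or.inr (by decide)), ex_idle]
        refine ⟨⟨(hg0 (by omega)).1, ?_⟩, (hg0 (by omega)).2⟩
        simp only [show d ≠ 0 by omega, show d ≠ 1 by omega, show d ≠ 2 by omega,
          show d + 1 ≠ 0 by omega, show d + 1 ≠ 1 by omega, show d + 1 ≠ 2 by omega, if_false]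

end Pool.Agent.Helper71.CTG
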